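import Mathlib

namespace Pool.Agent.Results.MP_d3a611_gt.No

open Classical

/-- the discrete Heisenberg group -/
def Heis : Subgroup (Matrix.SpecialLinearGroup (Fin 3) ℤ) where
  carrier := {g | g 1 0 = 0 ∧ g 2 0 = 0 ∧ g 2 1 = 0 ∧ g 0 0 = 1 ∧ g 1 1 = 1 ∧ g 2 2 = 1}
  one_mem' := by simp
  mul_mem' := by
    rintro a b ⟨a1, a2, a3, a4, a5, a6⟩ ⟨b1, b2, b3, b4, b5, b6⟩
    simp [Matrix.mul_apply, Fin.sum_univ_three, *]
  inv_mem' := by
    rintro a ⟨a1, a2, a3, a4, a5, a6⟩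
    simp [Matrix.SpecialLinearGroup.coe_inv, Matrix.adjugate_fin_three, *]

section
variable {Γ : Type} [Group Γ]

/-- the Cayley graph -/
def cayley (S : Finset Γ) : SimpleGraph Γ := SimpleGraph.fromRel fun g h => ∃ s ∈ S, h = g * s

/-- the neighbours of a vertex -/
noncomputable def nbrs (S : Finset Γ) (x : Γ) : Finset Γ := S.image fun s => x * s

/-- couplings of the uniform measures on two finite sets -/
def IsCoupling (A B : Finset Γ) (p : Γ → Γ → ℝ) : Prop :=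
  (∀ u v, 0 ≤ p u v) ∧ (∀ u ∈ A, ∑ v ∈ B, p u v = 1 / A.card) ∧
    ∀ v ∈ B, ∑ u ∈ A, p u v = 1 / B.card

/-- the Wasserstein distance of the one-step laws -/
noncomputable def W1 (S : Finset Γ) (x y : Γ) : ℝ :=
  sInf {c | ∃ p, IsCoupling (nbrs S x) (nbrs S y) p ∧
    c = ∑ u ∈ nbrs S x, ∑ v ∈ nbrs S y, p u v * ((cayley S).dist u v : ℝ)}

/-- the Ollivier-Ricci curvature -/
noncomputable def kappa (S : Finset Γ) (x y : Γ) : ℝ := 1 - W1 S x y / ((cayley S).dist x y : ℝ)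

theorem adj_iff (S : Finset Γ) (hs : ∀ s ∈ S, s⁻¹ ∈ S) {g h : Γ} (a : (cayley S).Adj g h) :
    ∃ s ∈ S, h = g * s := by
  rw [cayley, SimpleGraph.fromRel_adj] at a
  rcases a.2 with h1 | ⟨s, h1, h2⟩
  · exact h1
  · exact ⟨s⁻¹, hs s h1, by simp [h2]⟩

theorem conn (S : Finset Γ) (hgen : Subgroup.closure (S : Set Γ) = ⊤) (g h : Γ) :
    (cayley S).Reachable g h := by
  have key : ∀ k : Γ, ∀ g : Γ, (cayley S).Reachable g (g * k) := by
    intro k
    have hk : k ∈ Subgroup.closure (S : Set Γ) := by rw [hgen]; trivial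
    induction hk using Subgroup.closure_induction with
    | mem s hs =>
      intro g
      by_cases e : g = g * s
      · rw [← e]
      · exact SimpleGraph.Adj.reachable (by
          rw [cayley, SimpleGraph.fromRel_adj]; exact ⟨e, Or.inl ⟨s, hs, rfl⟩⟩)
    | one => intro g; rw [mul_one]
    | mul a b _ _ ha hb => intro g; rw [← mul_assoc]; exact (ha g).trans (hb _)
    | inv a _ ha =>
      intro g
      have := (ha (g * a⁻¹)).symm
      rwa [inv_mul_cancel_right] at this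
  simpa using key (g⁻¹ * h) g

theorem abstract (S : Finset Γ) (hs : ∀ s ∈ S, s⁻¹ ∈ S) (h1 : 1 ∉ S)
    (hgen : Subgroup.closure (S : Set Γ) = ⊤) (l G : Γ → ℤ) (N : ℤ) (hN : 0 < N) (s : Γ)
    (hsS : s ∈ S) (hl : ∀ g h, l (g * h) = l g + l h) (hls : l s = N) (hle : ∀ t ∈ S, l t ≤ N)
    (hG : ∀ t ∈ S, l t = N → ∀ g, G (g * t) ≤ G g) (hG2 : ∑ t ∈ S, G t < ∑ t ∈ S, G (s * t)) :
    ∃ x y, (cayley S).Adj x y ∧ kappa S x y < 0 := by
  have hadj : (cayley S).Adj 1 s := by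
    rw [cayley, SimpleGraph.fromRel_adj]
    exact ⟨fun e => h1 (e ▸ hsS), Or.inl ⟨s, hsS, by simp⟩⟩
  refine ⟨1, s, hadj, ?_⟩
  have walk : ∀ (u w : Γ) (p : (cayley S).Walk u w),
      l w - l u ≤ N * p.length ∧ (l w - l u = N * p.length → G w ≤ G u) := by
    intro u w p
    induction p with
    | nil => simp
    | cons a p ih =>
      obtain ⟨t, ht, rfl⟩ := adj_iff S hs a
      rw [hl] at ih
      have := hle t ht
      simp only [SimpleGraph.Walk.length_cons, Nat.cast_add, Nat.cast_one, mul_add, mul_one]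
      refine ⟨by linarith [ih.1], fun e => ?_⟩
      exact (ih.2 (by linarith [ih.1])).trans (hG t ht (by linarith [ih.1]) _)
  obtain ⟨B, hB0, hB⟩ : ∃ B : ℤ, 0 < B ∧ ∀ u ∈ nbrs S 1, ∀ w ∈ nbrs S s, G w - G u ≤ B := by
    obtain ⟨B, hB⟩ := (((nbrs S 1) ×ˢ (nbrs S s)).image fun q => G q.2 - G q.1).bddAbove
    refine ⟨max B 1, by positivity, fun u hu w hw => le_trans (hB ?_) (le_max_left _ _)⟩
    exact Finset.mem_coe.2 (Finset.mem_image.2 ⟨(u, w), Finset.mem_product.2 ⟨hu, hw⟩, rfl⟩)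
  have key : ∀ u ∈ nbrs S 1, ∀ w ∈ nbrs S s,
      ((B * l w + G w : ℤ) : ℝ) - (B * l u + G u : ℤ) ≤ B * N * ((cayley S).dist u w : ℝ) := by
    intro u hu w hw
    obtain ⟨p, hp⟩ := (conn S hgen u w).exists_walk_length_eq_dist
    obtain ⟨a1, a2⟩ := walk u w p
    rw [hp] at a1 a2
    have : B * l w + G w - (B * l u + G u) ≤ B * N * ((cayley S).dist u w : ℤ) := by
      rcases a1.lt_or_eq with h | h
      · nlinarith [hB u hu w hw]
      · have := a2 h
        have e : B * l w - B * l u = B * N * ((cayley S).dist u w : ℤ) := by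
          rw [← mul_sub, h]; ring
        linarith
    exact_mod_cast this
  have hc : ∀ x, (nbrs S x).card = S.card := fun x =>
    Finset.card_image_of_injective _ (mul_right_injective x)
  have hsum : ∀ (x : Γ) (f : Γ → ℝ), ∑ u ∈ nbrs S x, f u = ∑ t ∈ S, f (x * t) := fun x f =>
    Finset.sum_image fun a _ b _ h => mul_left_cancel h
  have hpos : (0 : ℝ) < S.card := by exact_mod_cast Finset.card_pos.2 ⟨s, hsS⟩
  have hBN : (0 : ℝ) < B * N := by exact_mod_cast mul_pos hB0 hN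
  have hW : 1 + 1 / (S.card * (B * N)) ≤ W1 S 1 s := by
    refine le_csInf ⟨_, fun _ _ => 1 / (S.card * S.card), ⟨fun _ _ => by positivity,
      fun _ _ => ?_, fun _ _ => ?_⟩, rfl⟩ ?_
    · rw [Finset.sum_const, hc, hc, nsmul_eq_mul]; field_simp
    · rw [Finset.sum_const, hc, hc, nsmul_eq_mul]; field_simp
    rintro _ ⟨p, ⟨p0, p1, p2⟩, rfl⟩
    set f : Γ → ℝ := fun u => ((B * l u + G u : ℤ) : ℝ) with hf
    have a1 : ∑ u ∈ nbrs S 1, ∑ v ∈ nbrs S s, p u v * (f v - f u) ≤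
        B * N * ∑ u ∈ nbrs S 1, ∑ v ∈ nbrs S s, p u v * ((cayley S).dist u v : ℝ) := by
      rw [Finset.mul_sum]
      refine Finset.sum_le_sum fun u hu => ?_
      rw [Finset.mul_sum]
      refine Finset.sum_le_sum fun v hv => ?_
      have := mul_le_mul_of_nonneg_left (key u hu v hv) (p0 u v)
      simp only [hf]
      linarith
    have a2 : ∑ u ∈ nbrs S 1, ∑ v ∈ nbrs S s, p u v * (f v - f u) =
        (∑ t ∈ S, f (s * t) - ∑ t ∈ S, f t) / S.card := by
      simp only [mul_sub, Finset.sum_sub_distrib]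
      rw [Finset.sum_comm]
      simp only [← Finset.sum_mul]
      have b1 : ∑ v ∈ nbrs S s, (∑ u ∈ nbrs S 1, p u v) * f v =
          ∑ v ∈ nbrs S s, 1 / (S.card : ℝ) * f v :=
        Finset.sum_congr rfl fun v hv => by rw [p2 v hv, hc]
      have b2 : ∑ u ∈ nbrs S 1, (∑ v ∈ nbrs S s, p u v) * f u =
          ∑ u ∈ nbrs S 1, 1 / (S.card : ℝ) * f u :=
        Finset.sum_congr rfl fun u hu => by rw [p1 u hu, hc]
      rw [b1, b2, ← Finset.mul_sum, ← Finset.mul_sum, hsum, hsum]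
      simp only [one_mul]
      ring
    have a3 : S.card * (B * N) + 1 ≤ ∑ t ∈ S, f (s * t) - ∑ t ∈ S, f t := by
      have : (S.card : ℤ) * (B * N) + 1 ≤
          ∑ t ∈ S, (B * l (s * t) + G (s * t)) - ∑ t ∈ S, (B * l t + G t) := by
        simp only [hl, hls, mul_add, Finset.sum_add_distrib, Finset.sum_const, nsmul_eq_mul]
        linarith
      simp only [hf]
      exact_mod_cast this
    rw [a2, div_le_iff₀ hpos] at a1
    rw [← mul_le_mul_iff_left₀ (mul_pos hpos hBN), add_mul, one_div_mul_cancel (by positivity)]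
    nlinarith
  rw [kappa, SimpleGraph.dist_eq_one_iff_adj.2 hadj]
  have : 0 < 1 / ((S.card : ℝ) * (B * N)) := by positivity
  simp only [Nat.cast_one, div_one]
  linarith

end

def X (g : Heis) : ℤ := g.1 0 1
def Y (g : Heis) : ℤ := g.1 1 2
def C (g : Heis) : ℤ := 2 * g.1 0 2 - g.1 0 1 * g.1 1 2

theorem X_mul (g h : Heis) : X (g * h) = X g + X h := by
  obtain ⟨a1, a2, a3, a4, a5, a6⟩ := g.2
  obtain ⟨b1, b2, b3, b4, b5, b6⟩ := h.2
  simp [X, Matrix.mul_apply, Fin.sum_univ_three, *, add_comm]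

theorem Y_mul (g h : Heis) : Y (g * h) = Y g + Y h := by
  obtain ⟨a1, a2, a3, a4, a5, a6⟩ := g.2
  obtain ⟨b1, b2, b3, b4, b5, b6⟩ := h.2
  simp [Y, Matrix.mul_apply, Fin.sum_univ_three, *, add_comm]

theorem C_mul (g h : Heis) : C (g * h) = C g + C h + (X g * Y h - Y g * X h) := by
  obtain ⟨a1, a2, a3, a4, a5, a6⟩ := g.2
  obtain ⟨b1, b2, b3, b4, b5, b6⟩ := h.2
  simp [C, X, Y, Matrix.mul_apply, Fin.sum_univ_three, *]
  ring

def ex : Heis := ⟨⟨!![1, 1, 0; 0, 1, 0; 0, 0, 1], by simp [Matrix.det_fin_three]⟩, by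
  simp [Heis]⟩
def ey : Heis := ⟨⟨!![1, 0, 0; 0, 1, 1; 0, 0, 1], by simp [Matrix.det_fin_three]⟩, by
  simp [Heis]⟩

theorem ex_lin (S : Finset Heis) (hs : ∀ s ∈ S, s⁻¹ ∈ S)
    (hgen : Subgroup.closure (S : Set Heis) = ⊤) (a b : ℤ) (hab : a ≠ 0 ∨ b ≠ 0) :
    ∃ t ∈ S, 0 < a * X t + b * Y t := by
  by_contra hcon
  push Not at hcon
  let φ : Heis →* Multiplicative ℤ := MonoidHom.mk' (fun g => Multiplicative.ofAdd (a * X g + b * Y g))
    (fun g h => by rw [← ofAdd_add, X_mul, Y_mul]; congr 1; ring)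
  have hφ : ∀ g, Multiplicative.toAdd (φ g) = a * X g + b * Y g := fun _ => rfl
  have hk : Subgroup.closure (S : Set Heis) ≤ φ.ker := by
    rw [Subgroup.closure_le]
    intro t ht
    have e1 := hcon t ht
    have e2 := hcon _ (hs t ht)
    rw [← hφ, map_inv, toAdd_inv, hφ] at e2
    show φ t = 1
    rw [← toAdd_eq_zero, hφ]
    linarith
  rw [hgen] at hk
  have e1 : φ ex = 1 := hk (Subgroup.mem_top _)
  have e2 : φ ey = 1 := hk (Subgroup.mem_top _)
  rw [← toAdd_eq_zero, hφ] at e1 e2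
  simp [X, Y, ex, ey] at e1 e2
  tauto

theorem result (S : Finset Heis) (hs : ∀ s ∈ S, s⁻¹ ∈ S) (h1 : 1 ∉ S)
    (hgen : Subgroup.closure (S : Set Heis) = ⊤) :
    ∃ x y, (cayley S).Adj x y ∧ kappa S x y < 0 := by
  obtain ⟨t0, ht0, hp0⟩ := ex_lin S hs hgen 1 0 (by simp)
  obtain ⟨v, hv, hmax⟩ := S.exists_max_image (fun t => X t ^ 2 + Y t ^ 2) ⟨t0, ht0⟩
  obtain ⟨s, hsS, hmax2⟩ := (S.filter fun t => X t = X v ∧ Y t = Y v).exists_max_image C
    ⟨v, by simp [hv]⟩
  rw [Finset.mem_filter] at hsS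
  obtain ⟨hsS, hx, hy⟩ := hsS
  set p := X v
  set q := Y v
  have hN : 0 < p ^ 2 + q ^ 2 := by
    have := hmax t0 ht0
    nlinarith [sq_nonneg (Y t0)]
  let m : Heis → ℤ := fun g => -q * X g + p * Y g
  refine abstract S hs h1 hgen (fun g => p * X g + q * Y g)
    (fun g => max (m g) 0 * ((p ^ 2 + q ^ 2) * C g - (C s - m g) * (p * X g + q * Y g)))
    (p ^ 2 + q ^ 2) hN s hsS (fun g h => by rw [X_mul, Y_mul]; ring) (by rw [hx, hy]; ring)
    (fun t ht => ?_) (fun t ht e g => ?_) ?_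
  · have := hmax t ht
    nlinarith [sq_nonneg (X t - p), sq_nonneg (Y t - q)]
  · have a1 := hmax t ht
    have a2 : X t = p := by nlinarith [sq_nonneg (X t - p), sq_nonneg (Y t - q)]
    have a3 : Y t = q := by nlinarith [sq_nonneg (X t - p), sq_nonneg (Y t - q)]
    have a4 := hmax2 t (Finset.mem_filter.2 ⟨ht, a2, a3⟩)
    have a5 : m (g * t) = m g := by simp only [m, X_mul, Y_mul, a2, a3]; ring
    simp only [a5]
    refine mul_le_mul_of_nonneg_left ?_ (le_max_right _ _)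
    rw [C_mul, X_mul, Y_mul, a2, a3]
    simp only [m]
    nlinarith
  · obtain ⟨t1, ht1, hp1⟩ := ex_lin S hs hgen (-q) p (by
      by_contra h
      push Not at h
      rw [h.2, neg_eq_zero.1 h.1] at hN
      simp at hN)
    have a5 : ∀ g, m (s * g) = m g := fun g => by simp only [m, X_mul, Y_mul, hx, hy]; ring
    have a6 : ∀ g, max (m (s * g)) 0 * ((p ^ 2 + q ^ 2) * C (s * g) -
        (C s - m (s * g)) * (p * X (s * g) + q * Y (s * g))) =
        max (m g) 0 * ((p ^ 2 + q ^ 2) * C g - (C s - m g) * (p * X g + q * Y g)) +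
          2 * (p ^ 2 + q ^ 2) * (max (m g) 0 * m g) := by
      intro g
      rw [a5, C_mul, X_mul, Y_mul, hx, hy]
      simp only [m]
      ring
    refine Finset.sum_lt_sum (fun t _ => ?_) ⟨t1, ht1, ?_⟩
    · rw [a6]
      have : 0 ≤ max (m t) 0 * m t := by
        rcases le_total (m t) 0 with h | h
        · simp [h]
        · exact mul_nonneg (le_max_right _ _) h
      nlinarith
    · rw [a6]
      have hp1' : 0 < m t1 := hp1
      have : 0 < max (m t1) 0 * m t1 := mul_pos (lt_max_of_lt_left hp1') hp1'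
      nlinarith

end Pool.Agent.Results.MP_d3a611_gt.No
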